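import Pool.Agent.AT12.Asm1
import Pool.Agent.Helper64_AT12.CST

/-!
# Squad AT12: assembly, the theorem for block idempotents for odd primes
-/

open scoped BigOperators

noncomputable section

namespace Pool.Agent.PP.T12

theorem cst_ : CstStmt := H64.cst cpy_

theorem lbc_ : LbcStmt := lbc_of cst_ syx_

theorem ltc_ : LtcStmt := ltc_of lbc_

theorem tca_ : TcaStmt := tca_of ltc_

theorem fnc_ : FncStmt := fnc_of tca_

end Pool.Agent.PP.T12
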