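import Pool.Agent.AT8.Asm
import Pool.Agent.Helper25_C2.SEC2
import Pool.Agent.Helper48_C2.INT2
import Pool.Agent.Helper77_AT12.CMS
import Pool.Agent.Helper56_AT12.ANN
import Pool.Agent.Helper56_AT12.STF
import Pool.Agent.Helper45_AT12.QOR
import Pool.Agent.Helper83_AT12.QAV
import Pool.Agent.Helper82_AT12.QFV
import Pool.Agent.Helper33_AT12.OAV
import Pool.Agent.Helper38_AT12.AVI
import Pool.Agent.Helper84_AT12.FSY
import Pool.Agent.Helper3_AT12.CCY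
import Pool.Agent.Helper32_AT12.SE2
import Pool.Agent.Helper1_AT12.CO2
import Pool.Agent.Helper15_AT12.CPY
import Pool.Agent.Helper1_AT12.SYX
import Pool.Agent.Helper67_AT12.CRG
import Pool.Agent.Helper87_AT12.CSM
import Pool.Agent.Helper38_AT12.AVN
import Pool.Agent.Helper17_AT12.AVL
import Pool.Agent.Helper76_AT12.GAL
import Pool.Agent.Helper86_AT12.BSF
import Pool.Agent.Helper65_AT12.GRM
import Pool.Agent.Helper13_AT12.BE2
import Pool.Agent.Helper91_AT12.CNB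
import Pool.Agent.Helper13_AT12.FX1
import Pool.Agent.Helper13_AT12.LBZ
import Pool.Agent.Helper86_AT12.LBC
import Pool.Agent.Helper32_AT12.LTC
import Pool.Agent.Helper62_AT12.TCC
import Pool.Agent.Helper59_AT12.TCA
import Pool.Agent.Helper7_AT12.FNC

/-!
# Squad AT12: assembly of the rows, up to the rows CYN, LBY, CST
-/

open scoped BigOperators

noncomputable section

namespace Pool.Agent.PP.T12

theorem cms_ : CmsStmt := H77.cms

theorem ann_ : AnnStmt := H56.ann T8.fni_ T8.fgr_ T8.fnz_ T8.fkl_ T3.lrk_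

theorem stf_ : StfStmt :=
  H56.stf ann_ cms_ T2.pr2_ T8.dat_ T8.for__ T8.fni_ T8.fgr_ T8.fnz_ T8.prj_ T8.smi_ T8.fch_
    T8.lft_ KF.H25.idm

theorem qor_ : QorStmt := H45.qor

theorem qav_ : QavStmt := H83.qav K9.H3.psi K9.rot_

theorem qfv_ : QfvStmt := H82.qfv T8.lcl_ T8.prj_

theorem oav_ : OavStmt := H33.oav qor_ qav_ qfv_ T3.lpw_ T3.fus_ T3.loc_ C2.H25.sec2

theorem avi_ : AviStmt := H38.avi T8.lcl_ T8.smi_ T8.prj_

theorem fsy_ : FsyStmt := H84.fsy avi_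

theorem ccy_ : CcyStmt := H3.ccy oav_ T8.fch_

theorem se2_ : Se2Stmt := H32.se2

theorem co2_ : Co2Stmt :=
  H1.co2 se2_ fsy_ ccy_ T8.cid_ T8.csq_ T8.fch_ T8.rva_ T8.geq_ T8.dpw_ C2.H48.int2

theorem cpy_ : CpyStmt := H15.cpy T8.cpr_

theorem crg_ : CrgStmt := H67.crg

theorem csm_ : CsmStmt := H87.csm T2.pwu_

theorem avn_ : AvnStmt := H38.avn csm_ crg_

theorem avl_ : AvlStmt := H17.avl csm_ crg_ T8.avb_

theorem gal_ : GalStmt := H76.gal crg_ C2.H48.int2 T3.inr_ T8.dpw_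

theorem bsf_ : BsfStmt := H86.bsf

theorem grm_ : GrmStmt := H65.grm oav_ crg_ T8.dor_ T8.dpw_

theorem be2_ : Be2Stmt := H13.be2 bsf_ grm_ avn_ crg_ T8.dpw_

theorem cnb_ : CnbStmt := H91.cnb

theorem fx1_ : Fx1Stmt := H13.fx1 T2.fxy_ T2.stg_ K9.nz_ T3.lrk_ T3.loc_ T3.lsb_

theorem lbz_ : LbzStmt := H13.lbz cnb_ be2_ gal_ avl_ crg_ T8.nrm_ T8.dcg_ K9.H34.inx

theorem lbc_of (cst : CstStmt) (syx : SyxStmt) : LbcStmt :=
  H86.lbc cst syx co2_ crg_ lbz_ fx1_ T8.lb8_ T8.xct_ T8.dat_ T2.pr2_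

theorem syx_of (lby : LbyStmt) : SyxStmt :=
  H1.syx lby stf_ T3.lsb_ T3.loc_ T3.psg_ T8.qt3_ T8.lfr_

theorem tcc_ : TccStmt := H62.tcc T8.tc8_

theorem ltc_of (lbc : LbcStmt) : LtcStmt := H32.ltc lbc T8.lt8_ T2.lb2_

theorem tca_of (ltc : LtcStmt) : TcaStmt := H59.tca ltc tcc_ T8.fqt_ T8.ts8_ T2.fst_ T2.dvx_

theorem fnc_of (tca : TcaStmt) : FncStmt := H7.fnc T3.flt_ T2.dza_ T8.qt3_ K9.H34.inx tca

theorem fnc_of_rows (lby : LbyStmt) (cst : CstStmt) : FncStmt :=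
  fnc_of (tca_of (ltc_of (lbc_of cst (syx_of lby))))

end Pool.Agent.PP.T12
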