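import Pool.Agent.AT12.Asm0
import Pool.Agent.Helper56_C2.REC
import Pool.Agent.Helper92_C2.DUV
import Pool.Agent.Helper3_C2.GDV
import Pool.Agent.Helper3_C2.DUG
import Pool.Agent.Helper52_C2.COVN
import Pool.Agent.Helper39_C2.YQV
import Pool.Agent.Helper11_C2.EXB
import Pool.Agent.Helper81_C2.INU
import Pool.Agent.Helper82_C2.NRM
import Pool.Agent.Helper3_C2.PSN
import Pool.Agent.Helper21_AT12.CYN
import Pool.Agent.Helper21_AT12.LBY

/-!
# Squad AT12: assembly of the rows, up to the row CST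
-/

open scoped BigOperators

noncomputable section

namespace Pool.Agent.PP.T12

theorem psn_ : C2.PsnStmt := C2.H3.psn

theorem nrm_ : C2.NrmStmt := C2.H82.nrm psn_

theorem inu_ : C2.InuStmt := C2.H81.inu C2.H11.exb

theorem gdv_ : C2.GdvStmt := C2.H3.gdv C2.H3.dug

theorem duv_ : C2.DuvStmt := C2.H92.duv gdv_ C2.H52.covn psn_

theorem cyn_ : CynStmt := H21.cyn C2.H56.rec_ duv_ C2.H39.yqv

theorem lby_ : LbyStmt := H21.lby inu_ nrm_ psn_ cyn_

theorem syx_ : SyxStmt := syx_of lby_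

theorem fnc_of_cst (cst : CstStmt) : FncStmt := fnc_of_rows lby_ cst

end Pool.Agent.PP.T12
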