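import Pool.Agent.AT8.StmtsF
import Pool.Agent.Helper57_C2.Stmts

/-!
# Squad AT12: defect groups `C_(ℓ ^ 2) × C_(ℓ ^ 2)`, every inertial quotient: definitions

Text: notes 2902, 2903.  Everything on top of squads AT8 (`Pool.Agent.PP.T8`), AT2, AT3 and C2.
-/

open scoped BigOperators

noncomputable section

namespace Pool.Agent.PP.T12

open Pool.Agent.Helper51_AWC Pool.Agent.Helper79_WRA Pool.Agent.PP Pool.Agent.PP.KF
open Pool.Agent.PP.K9 Pool.Agent.PP.K9.H97 Pool.Agent.PP.H75 Pool.Agent.PP.T3 Pool.Agent.PP.T2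
open Pool.Agent.PP.T8

attribute [local instance] Ideal.Quotient.field

section defs

variable {G H : Type} [Group G] [Group H]

/-- the sum of the numbers `A_χ(g i)` at `w` -/
def bq (ℓ : ℕ) {C : Subgroup G} (π : C →* H) {m : ℕ} (g : Fin m → H → ℂ) (w : G) (χ : G → ℂ) :
    ℂ := ∑ i, Av ℓ π w (g i) χ

/-- The element `y` of `V` has order `ℓ ^ 2`, `V = ⟨y⟩ × ⟨w⟩`, the stabiliser of the coset
`y V ^ ℓ` in the inertial group centralises `y`, it acts on `⟨w⟩` by powers and freely on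
`⟨w⟩ - 1`, and its order modulo `C(V)` is `m ≥ 2`. -/
structure Cs {F : Type} (ℓ : ℕ) (V : Subgroup G) (γ : G → F) (y w : G) (m : ℕ) : Prop where
  yV : y ∈ V
  wV : w ∈ V
  card : Nat.card V = ℓ ^ 4
  oy : orderOf y = ℓ ^ 2
  ow : orderOf w = ℓ ^ 2
  gen : ∀ v ∈ V, ∃ i k : ℕ, v = y ^ i * w ^ k
  uni : ∀ i i' k k' : ℕ, y ^ i * w ^ k = y ^ i' * w ^ k' → i ≡ i' [MOD ℓ ^ 2] ∧ k ≡ k' [MOD ℓ ^ 2]
  stb : ∀ t ∈ Tg V γ, ∀ v ∈ V, t * y * t⁻¹ = y * v ^ ℓ → t * y = y * t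
  act : ∀ t ∈ Tg V γ, t * y = y * t → ∃ μ : ℕ, t * w * t⁻¹ = w ^ μ
  fre : ∀ t ∈ Tg V γ, t * y = y * t → ∀ k : ℕ, ¬ ℓ ^ 2 ∣ k → t * w ^ k = w ^ k * t →
    t ∈ Subgroup.centralizer (V : Set G)
  ind : (Subgroup.centralizer (V : Set G)).relIndex (Tg V γ ⊓ Cu y) = m
  two : 2 ≤ m
  dvd : m ∣ ℓ - 1
  cyc : ∃ t₀ ∈ Tg V γ ⊓ Cu y, ∀ t ∈ Tg V γ ⊓ Cu y, ∃ k : ℕ,
    t₀ ^ k * t ∈ Subgroup.centralizer (V : Set G)

variable (M : Ideal (integralClosure ℤ ℂ)) [M.IsMaximal]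

/-- The structure of a block `f` with the abelian defect group `W` and a free inertial quotient of
order `m`: the `g i` are `m` virtual characters in `f` which vanish at the singular elements, with
Gram matrix `1 + K J`, `m K + 1 = |W|`, and the values of the class functions at an idempotent of
`f` which commutes with `W` are given by integers `n i` which are congruent modulo `|W|`. -/
structure Cd (ℓ : ℕ) (f : H → FF M) (W : Subgroup H) (m K : ℕ) (g : Fin m → H → ℂ) : Prop where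
  mul : m * K + 1 = Nat.card W
  ze : ∀ i, g i ∈ ZE M f
  rc : ∀ i, Rc ℓ (g i)
  gr : ∀ i j, ipn (g i) (g j) = (if i = j then 1 else 0) + K
  idm : ∀ j : H → ℂ, Ip M W j → mulF (rd M j) f = rd M j → ∃ n : Fin m → ℤ,
    (∀ i i', ((m * K + 1 : ℕ) : ℤ) ∣ n i - n i') ∧
    ∀ th : H → ℂ, (∀ x y, th (y * x * y⁻¹) = th x) →
      ∑ᶠ h, j h * th h = ∑ i, (n i : ℂ) * ipn th (g i)

/-- The situation at the element `y` of `V` of order `ℓ ^ a`: `β` is its local block, `π` is a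
homomorphism of `C(y)` onto `H` with kernel `⟨y⟩`, the inertial group of `V` in `C(y)` has index `m`
over `C(V)`, and the image of `β` in `H` has the structure `Cd`. -/
structure Sy (ℓ a : ℕ) (e : G → FF M) (V : Subgroup G) (γ : G → FF M) (y : G) (β : G → FF M)
    (π : Cu y →* H) (m K : ℕ) (g : Fin m → H → ℂ) : Prop where
  ld : Ld ℓ e V γ
  mem : y ∈ V
  pos : 0 < a
  qn : C2.Qn (ℓ ^ a) y π
  lc : Lc e V γ y β
  ind : (Subgroup.centralizer (V : Set G)).relIndex (Tg V γ ⊓ Cu y) = m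
  cd : Cd M ℓ (push π (fun t : Cu y => β t)) ((V.subgroupOf (Cu y)).map π) m K g

/-- The conclusion of the coherence theorem, with the value at the powers of `y`. -/
structure Ch (ℓ N : ℕ) (V : Subgroup G) (γ : G → FF M) (b : G → G → FF M) (d : G → ℕ)
    (ε : G → ℤ) (y : G) (π : Cu y →* H) (m K : ℕ) (g : Fin m → H → ℂ) (θ : ℤ) (χ f : G → ℂ) :
    Prop where
  rv : Rv M V f
  reg : ∀ u, Rg V γ u → f u = ε u * vv M b d u χ
  inv : (∀ x, χ (x ^ N) = χ x) → ∀ v ∈ V, f (v ^ N) = f v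
  y : ∀ j : ℕ, ¬ ℓ ∣ j →
    (f (y ^ j) - θ * bq ℓ π g (y ^ j) χ) / ((m * K + 1 : ℕ) : ℂ) ∈ RM M

/-- All the data of this section. -/
structure Sg (ℓ N : ℕ) (e : G → FF M) (V : Subgroup G) (γ : G → FF M) (b : G → G → FF M)
    (d : G → ℕ) (c : ℕ) (ε : G → ℤ) (y w : G) (β : G → FF M) (π : Cu y →* H) (m K : ℕ)
    (g : Fin m → H → ℂ) (θ : ℤ) : Prop where
  odd : ℓ ≠ 2
  exp : Monoid.exponent V = ℓ ^ 2
  gs : GS G ℓ N
  dat : Dat M ℓ e V γ b d c ε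
  cs : Cs ℓ V γ y w m
  sy : Sy M ℓ 2 e V γ y β π m K g
  sgn : θ = 1 ∨ θ = -1
  coh : ∀ χ ∈ Irr G, ∃ f : G → ℂ, Ch M ℓ N V γ b d ε y π m K g θ χ f

/-- the number `ε(u) χ(u b_u)/d_u` for `u = y ^ j w ^ (ℓ k)` -/
def vk (ℓ : ℕ) (b : G → G → FF M) (d : G → ℕ) (ε : G → ℤ) (y w : G) (j k : ℕ) (χ : G → ℂ) : ℂ :=
  (ε (y ^ j * w ^ (ℓ * k)) : ℂ) * vv M b d (y ^ j * w ^ (ℓ * k)) χ

/-- the average over the coset `y ^ j V ^ ℓ` for a fixed character -/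
def aa (ℓ : ℕ) (b : G → G → FF M) (d : G → ℕ) (ε : G → ℤ) (y w : G) {C : Subgroup G}
    (π : C →* H) {m : ℕ} (g : Fin m → H → ℂ) (θ : ℤ) (j : ℕ) (χ : G → ℂ) : ℂ :=
  (ℓ : ℂ)⁻¹ * ((θ : ℂ) * bq ℓ π g (y ^ j) χ + ∑ k ∈ Finset.Ico 1 ℓ, vk M ℓ b d ε y w j k χ)

/-- the characters in `e` which are fixed by `N` -/
def Rf (N : ℕ) (e : G → FF M) : Set (G → ℂ) := {χ | χ ∈ IrrE M e ∧ ∀ g, χ (g ^ N) = χ g}

/-- The new type of defect groups: two generators, exponent `ℓ ^ a`, `a ≥ 2`. -/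
structure Tg2 (ℓ a : ℕ) (V : Subgroup G) : Prop where
  le : 2 ≤ a
  exp : Monoid.exponent V = ℓ ^ a
  gen : ∃ x y : G, V = Subgroup.closure {x, y}

/-- the types of defect groups -/
def Ty12 {F : Type} (ℓ a : ℕ) (V : Subgroup G) (γ : G → F) : Prop :=
  Ty8 ℓ a V γ ∨ Tg2 ℓ a V

end defs

end Pool.Agent.PP.T12
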