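import Pool.Agent.AT12.Defs

/-!
# Squad AT12, part 1: blocks with a free inertial quotient and `l(f) = |E|`

Complete proofs in the docstrings.  A class function of `H` is written as a combination of the
irreducible characters; `IrrE M f` are the irreducible characters of the block `f`; `Rc ℓ p`: `p` is a
class function which vanishes at the `ℓ`-singular elements.  `T8.cl M W b d ε lam χ` (block F of AT8)
are integers (FNI) with Gram matrix `1 + m J` (FGR).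
-/

open scoped BigOperators

noncomputable section

namespace Pool.Agent.PP.T12

open Pool.Agent.Helper51_AWC Pool.Agent.Helper79_WRA Pool.Agent.PP Pool.Agent.PP.KF
open Pool.Agent.PP.K9 Pool.Agent.PP.K9.H97 Pool.Agent.PP.H75 Pool.Agent.PP.T3 Pool.Agent.PP.T2
open Pool.Agent.PP.T8

attribute [local instance] Ideal.Quotient.field

/-! ## 1. Combinatorics -/

/-- CMS: integral vectors with Gram matrix `1 + n J`, the extremal case.

Proof.  See the proof of `T8.CmbStmt` (`Helper6_AT8/CMB.lean`).  Let `K = |ι| ≥ 3`, `|κ| = K + n`.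
`n ≥ 1`: otherwise the `c i` are orthonormal integral vectors `± δ` with different supports, take
`y = 0`; the same formulas work.  `d_ij = c_i - c_j` has `|d_ij|² = 2`, so exactly two entries `≠ 0`,
both `±1`, and `(d_1j, d_1l) = 1` for `1, j, l` different; as in CMB (the case of three sets
`{a,b}, {a,c}, {b,c}`, `K = 4`, is impossible) there are `a`, `α = ±1`, different `b_j ≠ a` and
`β_j = ±1` (`j ≠ 1`) with `d_1j = α δ_a + β_j δ_(b_j)` (for `K = 3` choose `a` in the two supports,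
which meet in exactly one element with the same sign).  Put `y = c_1 - α δ_a`, `b_1 = a`,
`β_1 = - α`: `c_j = y - β_j δ_(b_j)` for all `j`, the `b_j` different.  With `t = α y(a)`: for `j ≠ 1`
`|c_j|² = |c_1|²` gives `β_j y(b_j) = - t`; also `β_1 y(b_1) = - t`.  `1 + n = |c_1|² =
|y|² + 2 t + 1`, so `|y|² = n - 2 t`.  At the `n` places which are not a `b_j` all the `c_i` are equal
to `y`, so `y ≠ 0` there, and `|y|² ≥ n + K t²`.  So `K t² ≤ - 2 t`, and `K ≥ 3` gives `t = 0`.  So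
`y(b_j) = 0`, `|y|² = n`, and `y = ±1` at the `n` other places. -/
def CmsStmt : Prop := ∀ (ι κ : Type) [Fintype ι] [Fintype κ] [DecidableEq κ] (c : ι → κ → ℤ)
  (n : ℕ), (∀ i, ∑ k, c i k * c i k = 1 + n) → (∀ i j, i ≠ j → ∑ k, c i k * c j k = n) →
  (∀ k, ∃ i, c i k ≠ 0) → 3 ≤ Fintype.card ι → Fintype.card κ = Fintype.card ι + n →
  ∃ (y : κ → ℤ) (s : ι → ℤ) (r : ι → κ), Function.Injective r ∧ (∀ i, s i = 1 ∨ s i = -1) ∧
    (∀ i, y (r i) = 0) ∧ (∀ k, (∀ i, r i ≠ k) → y k = 1 ∨ y k = -1) ∧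
    ∀ i k, c i k = y k - if k = r i then s i else 0

/-! ## 2. The number of modular characters -/

/-- CYN: blocks with cyclic defect groups.

Proof.  Compare `Helper3_C2/CYC.lean` (order `ℓ`).  By `CD2.Asm.d2a_` (`CyO`: every `R` with
`br_R(e) ≠ 0` is conjugate to a subgroup of `V`, `K9.H69.fmg`, so cyclic; `Pos ℓ e ⊤` as there, since
`V ≠ ⊥`, or by `T3.PosStmt`) `YY ℓ ⊤ e = 0` for every block `e` with a cyclic defect group `V ≠ ⊥`.
`C2.RecStmt` (`Helper56_C2/REC.lean`, no hypotheses): `YY ℓ ⊤ e = |G| lnum ⊤ e - ∑_{Q ≠ ⊥} |Q|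
yq ℓ Q e`.  Let `Q ≠ ⊥` be an `ℓ`-subgroup.  (i) `|Q| < |V|`: `yq ℓ Q e` is the sum of `YY ℓ ⊤ f`
over the blocks `f` of `N(Q)/Q` under the image of `br_Q(e)` (`AddStmt`; compare
`Helper27_C2/YQZ.lean`), and by `C2.DuvStmt` (`Helper92_C2/DUV.lean`) `f` has a defect group `R` with
`upm p R = conjS g V`, so `R` is a quotient of a group isomorphic to `V`, cyclic, of order
`|V|/|Q| > 1`: `YY ℓ ⊤ f = 0`.  (ii) `|Q| > |V|`: `Q` is not good, `br_Q(e) = 0`, `yq ℓ Q e = 0`.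
(iii) `|Q| = |V|`: `C2.YqvStmt` (`Helper39_C2/YQV.lean`): `|Q| yq ℓ Q e = |N(Q)| lnum (N(Q)) e`.  So
`|G| lnum ⊤ e = ∑_{|Q| = |V|} |N(Q)| lnum (N(Q)) e`, and as in the second half of `CYC.lean` the last
sum is `|G| lnum (N(V)) e = |G| lb (br_V(e) | N(V))` (`K9.H75.lbr`, `K9.H35.card_conj`,
`K9.H35.lnum_conjS`).  (For `V = ⊥` the claim is trivial: `N(⊥) = ⊤`, `br_⊥(e) = e`; it is excluded.) -/
def CynStmt : Prop := ∀ (ℓ : ℕ) [Fact ℓ.Prime] (M : Ideal (integralClosure ℤ ℂ)) [M.IsMaximal],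
  (ℓ : integralClosure ℤ ℂ) ∈ M → ∀ (G : Type) [Group G] [Finite G] (e : G → FF M), IsBlk e →
  ∀ V : Subgroup G, Tp ℓ e V → V ≠ ⊥ → IsCyclic V →
  C2.lb e = C2.lb (fun t : Subgroup.normalizer (V : Set G) => br V e t)

/-- LBY: lower bound for the number of modular characters of the image of the local block.

Proof.  As `C2.LbuStmt` (`Helper82_C2/LBU.lean`), with CYN instead of `C2.CycStmt`; the hypothesis
on `t₀` replaces `cyc_act` there.  `T1 = Tg V γ ⊓ Cu y` as a subgroup of `C(y)` is the inertial group of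
`V1 = V.subgroupOf (Cu y)`, `γ | C(y)` (`T3.LsbStmt` gives `Ld` and the index; `Ld` gives `C2.Inr`
with `T = Tg`).  `C2.NrmStmt` (`Helper82_C2/NRM.lean`) for `C(y)`, `β`: `m = |T1 : C(V1)| ≤
lb(br(β) | N(V1)) = lnum (N(V1)) β` (`K9.H75.lbr`), and as in `LBU.lean` (`p = π`, `ker π = ⟨y⟩`
central) `lnum (N(V1)) β = lnum (N(V1.map π)) (push π β) = lb (br (push π β) | N) = lb (push π β)` (the
last step CYN for the block `push π β`, `C2.PsnStmt`, with the defect group `V1.map π`).  `T3.ln` and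
`C2.lb` are the same number (`rfl`). -/
def LbyStmt : Prop := ∀ (ℓ : ℕ) [Fact ℓ.Prime] (M : Ideal (integralClosure ℤ ℂ)) [M.IsMaximal],
  (ℓ : integralClosure ℤ ℂ) ∈ M → ∀ (G H : Type) [Group G] [Finite G] [Group H] [Finite H]
  (e : G → FF M) (V : Subgroup G) (γ : G → FF M), Ld ℓ e V γ → ∀ y ∈ V, ∀ (a : ℕ)
  (π : Cu y →* H), C2.Qn (ℓ ^ a) y π → ∀ β, Lc e V γ y β →
  IsCyclic ((V.subgroupOf (Cu y)).map π) → (V.subgroupOf (Cu y)).map π ≠ ⊥ →
  (∃ t₀ ∈ Tg V γ ⊓ Cu y, ∀ t ∈ Tg V γ ⊓ Cu y, ∃ k : ℕ,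
    t₀ ^ k * t ∈ Subgroup.centralizer (V : Set G)) →
  (Subgroup.centralizer (V : Set G)).relIndex (Tg V γ ⊓ Cu y) ≤
    ln (push π (fun t : Cu y => β t))

/-! ## 3. The structure -/

/-- ANN: the class functions in `f` which vanish at the singular elements, if `l(f) ≥ |E|`.

Proof.  `m = ix W δ`, `k = |IrrE f|`.  All elements of `W - 1` are regular (`Fr`).  Let `K` be the
number of the `u i`.  By `T8.FklStmt` `ln f + K ≤ k`.  By FNI, FGR, FNZ the integral vectors `c_i =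
(cl (lam i) χ)_χ` on `IrrE f` satisfy the hypotheses of `T8.CmbStmt` with `n = m` (see
`Helper6_AT8/LFR.lean`), so `k ≤ K + m`.  With `m ≤ ln f`: `ln f = m`, `k = K + m`.  Let `S` be the
space of the complex combinations `Ψ` of `IrrE f` with `Rc ℓ Ψ`.  (i) If `Ψ ∈ S` then
`∑_χ (Ψ, χ) cl (lam i) χ = 0`: `cl (lam i) χ` is a combination of the numbers `vv v χ`, `v ∈ W - 1`, and
`∑_χ (Ψ, χ) vv v χ = 0`, because `∑_χ (Ψ, χ) χ(v s) = Ψ(v s) = 0` for all `s ∈ C(v)` regular (`v s` is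
singular).  (ii) `dim S = ln f = m`: by `K9.RotStmt` the multiplication with the indicator function
of the regular elements maps the span of `IrrE f` to itself; it is a projection onto `S`, its trace
(in the basis `IrrE f`) is `|H|⁻¹ ∑_{s regular} ∑_χ |χ(s)|² = ln f` (`T3.LrkStmt`).  (iii) The
conditions in (i) define a subspace of dimension `k - K = m` (the `c_i` are linearly independent,
Gram matrix `1 + m J`) which contains `S`, so it is `S`. -/
def AnnStmt : Prop := ∀ (ℓ : ℕ) [Fact ℓ.Prime] (M : Ideal (integralClosure ℤ ℂ)) [M.IsMaximal],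
  (ℓ : integralClosure ℤ ℂ) ∈ M → ℓ ≠ 2 → ∀ (H : Type) [Group H] [Finite H] (N : ℕ), GS H ℓ N →
  ∀ (f : H → FF M) (W : Subgroup H) (δ : H → FF M) (b : H → H → FF M) (d : H → ℕ) (c : ℕ)
  (ε : H → ℤ), Dat M ℓ f W δ b d c ε → Fr W δ → W ≠ ⊥ → ix W δ ≤ ln f →
  ∀ (K : ℕ) (u : Fin K → H) (lam : Fin K → (W →* ℂ)), (∀ i, u i ∈ W ∧ u i ≠ 1) →
  (∀ i j, i ≠ j → ∀ t ∈ Tg W δ, t * u i * t⁻¹ ≠ u j) → (∀ i, ∃ v, lam i v ≠ 1) →
  (∀ i j, i ≠ j → ∀ t ∈ Tg W δ, ¬ Tc W t (lam i) (lam j)) →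
  (∀ mu : W →* ℂ, (∃ v, mu v ≠ 1) → ∃ i, ∃ t ∈ Tg W δ, Tc W t (lam i) mu) →
  (IrrE M f).ncard = K + ix W δ ∧
  ∀ Ψ ∈ Submodule.span ℂ (IrrE M f),
    (Rc ℓ Ψ ↔ ∀ i, ∑ᶠ χ ∈ IrrE M f, ipn Ψ χ * cl M W b d ε (lam i) χ = 0)

/-- STF: the structure.

Proof.  `N` from `T2.Pr2Stmt`, the data from DAT, `K`, `u`, `lam` from `T8.ForStmt`;
`m K + 1 = |W|` (count the elements of `W - 1`: the sets `{t (u i) t⁻¹}` have `m` elements each, they
are disjoint, and they cover `W - 1`, because there are as many orbits on the nontrivial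
homomorphisms; or: `m K = |W| - 1` follows from the last claim of FOR applied to `lam`, all the
orbits of nontrivial homomorphisms have `m` elements, and there are `|W| - 1` of them).  `K ≥ 3`:
`m K ≥ 3 m`.  ANN, CMS for `ι = Fin K`, `κ = IrrE f`, `n = m`: `y`, `s`, `r`; the set `O` of the `χ ∈
IrrE f` which are not an `r i` has `m` elements; number them, `χ_1, ..., χ_m`.  `g_p = y(χ_p) χ_p +
∑_i s_i r_i`.  `(g_p, g_q) = δ_pq + K`.  `∑_χ (g_p, χ) c_i(χ) = y(χ_p)² - s_i² = 0`, so `Rc ℓ (g_p)` by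
ANN.  Let `j` be an idempotent as in `Cd.idm`.  `χ(j) := ∑_h j(h) χ(h)` is `0` for `χ ∈ Irr(H)`,
`χ ∉ IrrE f` (`mulF j (eh f) = j` as in LCL: the idempotent `j - j f^` has residue `0`, so it is `0`;
`IdmStmt`), a natural number otherwise (trace of an idempotent matrix).  `Ψ = ∑_χ χ(j) χ`, over
`IrrE f`: for a class function `th`: `∑_h j(h) th(h) = ∑_χ (th, χ) χ(j) = ipn th Ψ` (`χ(j)` is real).
`Ψ` vanishes at the singular elements: for the indicator function `th` of a singular class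
`ipn th Ψ = ∑_h j(h) th(h) = 0` by PRJ.  By ANN `∑_χ χ(j) c_i(χ) = 0`, that is
`s_i r_i(j) = ∑_p y(χ_p) χ_p(j)`.  With `n_p = y(χ_p) χ_p(j)`: `Ψ = ∑_p n_p g_p`
(`r_i(j) = s_i ∑_p n_p`).  Congruence: let `Δ = y(χ_p) χ_p - y(χ_q) χ_q = g_p - g_q`, `Rc ℓ Δ`.  For
`v ∈ W - 1` the number `fv j v Δ = ∑_h j(h) Δ(v h)` is `0`: let `j'` be the idempotent of LFT for
`C = Cu v`, `x = rs (Cu v) (rd M j)`; SMI gives `fv j v Δ = fv j' v Δ = ∑_{c ∈ C(v)} j'(c) Δ(v c)`, and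
the class function `c ↦ Δ(v c)` of `C(v)` vanishes at the regular elements (`v c` is singular), PRJ
for `C(v)`.  By FCH (trivial homomorphism) for `χ_p`, `χ_q`: `|W|⁻¹ ∑_v fv j v Δ = |W|⁻¹ Δ(j) =
|W|⁻¹ (n_p - n_q)` is an integer. -/
def StfStmt : Prop := ∀ (ℓ : ℕ) [Fact ℓ.Prime] (M : Ideal (integralClosure ℤ ℂ)) [M.IsMaximal],
  (ℓ : integralClosure ℤ ℂ) ∈ M → ℓ ≠ 2 → ∀ (H : Type) [Group H] [Finite H] (f : H → FF M)
  (W : Subgroup H) (δ : H → FF M), Ld ℓ f W δ → Fr W δ → ix W δ ≤ ln f →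
  3 * ix W δ < Nat.card W → ∃ (K : ℕ) (g : Fin (ix W δ) → H → ℂ), Cd M ℓ f W (ix W δ) K g

end Pool.Agent.PP.T12
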