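import Pool.Agent.AT12.Stmts1

/-!
# Squad AT12, part 2: the coherence theorem at the powers of `y`

Complete proofs in the docstrings.  `gbv C g q χ = ∑_{c ∈ C} q(c) χ(g c)`,
`Av ℓ π w p χ = |H|⁻¹ ∑_{s ∈ C(y) regular} χ(w s) conj p(π s)`, `fv i z χ = χ(z i)`,
`fs V γ i z χ` its sum over the `t z t⁻¹`, `t ∈ T/C(V)`, `cc V γ i z = ∑_χ (F_χ, 1) F_χ(z)`.
`Sy M ℓ a e V γ y β π m K g`: the structure at the element `y` of order `ℓ ^ a`.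
-/

open scoped BigOperators

noncomputable section

namespace Pool.Agent.PP.T12

open Pool.Agent.Helper51_AWC Pool.Agent.Helper79_WRA Pool.Agent.PP Pool.Agent.PP.KF
open Pool.Agent.PP.K9 Pool.Agent.PP.K9.H97 Pool.Agent.PP.H75 Pool.Agent.PP.T3 Pool.Agent.PP.T2
open Pool.Agent.PP.T8

attribute [local instance] Ideal.Quotient.field

/-! ## 4. Orthogonality -/

/-- QOR: block orthogonality for elements of the centres of the blocks of the centralisers.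

Proof.  As `T3.Co2Stmt` (`Helper*_AT3`, row CO2).  The complex conjugate of `gbv (Cu u') u' q' χ` is
`∑_c conj (q'(c)) χ((u' c)⁻¹)`.  Put `q''(s) = conj (q'(s⁻¹))`; `eh M β'(s⁻¹) = conj (eh M β'(s))`, so
`mulF q'' (eh M β') = q''`.  By `TrcStmt` the sum is the sum over `x, g ∈ G` of
`a(g) a'(x⁻¹ g⁻¹ x)`, `a = u q`, `a' = u'⁻¹ q''` (supported on `u C`, `u'⁻¹ C'`, `C`, `C'` the regular
elements of `C(u)`, `C(u')`).  `g = u s`, `x⁻¹ s⁻¹ u⁻¹ x = u'⁻¹ s'`; comparing the `ℓ`-parts,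
`x u' x⁻¹ = u`.  For such an `x` the sum over `g` is `(q · (x q'' x⁻¹))(1)` in the group ring of
`C(u) = x C(u') x⁻¹`.  `q = q β^`, `x q'' x⁻¹ = (cj x β')^ (x q'' x⁻¹)`, and `β^ (cj x β')^ = 0`, because
the two idempotents of `F C(u)` are orthogonal (no character is in both). -/
def QorStmt : Prop := ∀ (ℓ : ℕ) [Fact ℓ.Prime] (M : Ideal (integralClosure ℤ ℂ)) [M.IsMaximal],
  (ℓ : integralClosure ℤ ℂ) ∈ M → ∀ (G : Type) [Group G] [Finite G] (u u' : G), El ℓ u → El ℓ u' →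
  ∀ β β' : G → FF M, Ix (Cu u) β → Ix (Cu u') β' →
  (∀ x : G, x * u' * x⁻¹ = u → mulF β (cj x β') = 0) → ∀ (q : Cu u → ℂ) (q' : Cu u' → ℂ),
  Rc ℓ q → Rc ℓ q' → mulF q (eh M (fun t : Cu u => β t)) = q →
  mulF q' (eh M (fun t : Cu u' => β' t)) = q' →
    ∑ᶠ χ ∈ Irr G, gbv (Cu u) u q χ * starRingEnd ℂ (gbv (Cu u') u' q' χ) = 0

/-- QAV: the numbers `Av` are of this form.

Proof.  `q(s) = |H|⁻¹ conj (p(π s))` for `s` regular, `0` otherwise.  Let `P(s) = p(π s)`; by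
`K9.PsiStmt` (`Helper3_K9/PSI.lean` or the file proving it) it is in the span of `IrrE M β`, and by
`K9.RotStmt` so is its product `P°` with the indicator function of the regular elements:
`P° = ∑_{κ ∈ β} a_κ κ`, `q(s) = |H|⁻¹ ∑ conj(a_κ) κ(s⁻¹)`.  `eh M β(s) = |C|⁻¹ ∑_{κ ∈ β} κ(1) κ(s⁻¹)`, and
the convolution of `s ↦ κ(s⁻¹)` with `eh M β` is `s ↦ κ(s⁻¹)` for `κ ∈ β` (`IdmStmt`/Schur).
`Av ℓ π x p χ = |H|⁻¹ ∑_{s regular} χ(x s) conj (p(π s)) = gbv (Cu u) x q χ` (definitions). -/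
def QavStmt : Prop := ∀ (ℓ : ℕ) [Fact ℓ.Prime] (M : Ideal (integralClosure ℤ ℂ)) [M.IsMaximal],
  (ℓ : integralClosure ℤ ℂ) ∈ M → ∀ (G H : Type) [Group G] [Finite G] [Group H] [Finite H] (u : G)
  (n : ℕ) (π : Cu u →* H), C2.Qn n u π → ∀ β : G → FF M, Ix (Cu u) β →
  ∀ p ∈ Submodule.span ℂ (IrrE M (push π (fun t : Cu u => β t))), Rc ℓ p →
  ∃ q : Cu u → ℂ, Rc ℓ q ∧ mulF q (eh M (fun t : Cu u => β t)) = q ∧
    ∀ (x : G) (χ : G → ℂ), Av ℓ π x p χ = gbv (Cu u) x q χ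

/-- QFV: the numbers `fv i z` are of this form.

Proof.  `j` from LCL for `z`, `b`.  `q(s) = |C(z)|⁻¹ ∑_{x ∈ C(z)} j(x s x⁻¹)` for `s ∈ C(z)`: a class
function of `C(z)` with `mulF q (eh M b) = q` (`mulF j (ext0 (eh M b)) = j`, and `eh M b` is a class
function), it vanishes at the singular elements (PRJ for `C(z)` and the idempotent `j | C(z)`, `th`
the indicator function of a singular class), and `fv i z th = fv j z th = ∑_{s ∈ C(z)} j(s) th(z s) =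
∑_s q(s) th(z s)`, since `s ↦ th(z s)` is a class function of `C(z)`. -/
def QfvStmt : Prop := ∀ (ℓ : ℕ) [Fact ℓ.Prime] (M : Ideal (integralClosure ℤ ℂ)) [M.IsMaximal],
  (ℓ : integralClosure ℤ ℂ) ∈ M → ∀ (G : Type) [Group G] [Finite G] (e : G → FF M)
  (V : Subgroup G) (γ : G → FF M), Ld ℓ e V γ → ∀ i : G → ℂ, Ci M e V γ i → ∀ z ∈ V, ∀ b,
  Lc e V γ z b → ∃ q : Cu z → ℂ, Rc ℓ q ∧ mulF q (eh M (fun t : Cu z => b t)) = q ∧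
    ∀ th : G → ℂ, (∀ x y, th (y * x * y⁻¹) = th x) → fv i z th = gbv (Cu z) z q th

/-- OAV: orthogonality for the numbers `Av` at the powers of `y`.

Proof.  `z = y ^ j`: `C(z) = C(y)` and `β` is the local block of `z` (LPW); `Av ℓ π z p χ =
gbv (Cu y) (y ^ j) q χ` by QAV, which is `gbv (Cu z) z q χ` after rewriting `C(z) = C(y)`.  (i) QFV for
`v` and its local block `b`; (ii) `vv M b d u χ = (d u)⁻¹ gbv (Cu u) u (eh M (b u)) χ`, `eh M (b u)` is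
`Rc ℓ` (`K9.H25.eh_sing`) and idempotent; (iii) QAV.  In all cases QOR: let `x v x⁻¹ = z` and
`mulF β (cj x b) ≠ 0`; `cj x b` is a block of `C(z)`, so `β = cj x b` (`Bx.dich`), and FUS (`u = z`,
`u' = v`) gives `t ∈ T` with `t v t⁻¹ = z`, against the hypothesis.  (In (iii) `v = y ^ j'`, `b = β`.)
(iv) is `C2.Sec2Stmt` (`Helper25_C2/SEC2.lean`, no hypotheses). -/
def OavStmt : Prop := ∀ (ℓ : ℕ) [Fact ℓ.Prime] (M : Ideal (integralClosure ℤ ℂ)) [M.IsMaximal],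
  (ℓ : integralClosure ℤ ℂ) ∈ M → ∀ (G H : Type) [Group G] [Finite G] [Group H] [Finite H] (a : ℕ)
  (e : G → FF M) (V : Subgroup G) (γ : G → FF M) (y : G) (β : G → FF M) (π : Cu y →* H) (m K : ℕ)
  (g : Fin m → H → ℂ), Sy M ℓ a e V γ y β π m K g → ∀ j : ℕ, ¬ ℓ ∣ j →
  ∀ p ∈ ZE M (push π (fun t : Cu y => β t)), Rc ℓ p →
  (∀ i : G → ℂ, Ci M e V γ i → ∀ v ∈ V, (∀ t ∈ Tg V γ, t * v * t⁻¹ ≠ y ^ j) →
    ∑ᶠ χ ∈ Irr G, Av ℓ π (y ^ j) p χ * starRingEnd ℂ (fv i v χ) = 0) ∧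
  (∀ (b : G → G → FF M) (d : G → ℕ) (c : ℕ) (ε : G → ℤ), Dat M ℓ e V γ b d c ε →
    ∀ u, Rg V γ u → (∀ t ∈ Tg V γ, t * u * t⁻¹ ≠ y ^ j) →
    ∑ᶠ χ ∈ Irr G, Av ℓ π (y ^ j) p χ * starRingEnd ℂ (vv M b d u χ) = 0) ∧
  (∀ j' : ℕ, ¬ ℓ ∣ j' → (∀ t ∈ Tg V γ, t * y ^ j' * t⁻¹ ≠ y ^ j) →
    ∀ p' ∈ ZE M (push π (fun t : Cu y => β t)), Rc ℓ p' →
    ∑ᶠ χ ∈ Irr G, Av ℓ π (y ^ j) p χ * starRingEnd ℂ (Av ℓ π (y ^ j') p' χ) = 0) ∧
  ∀ p' ∈ ZE M (push π (fun t : Cu y => β t)), Rc ℓ p' →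
    ∑ᶠ χ ∈ Irr G, Av ℓ π (y ^ j) p χ * starRingEnd ℂ (Av ℓ π (y ^ j) p' χ) =
      (ℓ : ℂ) ^ a * ipn p' p

/-! ## 5. The coherent idempotent at the powers of `y` -/

/-- AVI: the values of a coherent idempotent.

Proof.  `C = C(y)`, `j₀` from LCL for `z = y`, `β`; let `J = push π j₀` (the sum over the fibres, for
complex functions), `W` the image of `V`, `f = push π β`.  `Ip M W J`: `push π` is a ring
homomorphism, the sums are in `RM M`, and `J` commutes with `W` because `j₀` commutes with `V`.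
`rd M J = push π (rd M j₀)`, and `mulF (rd M j₀) β = rd M j₀` on `C` (`mulF j₀ β^ = j₀`, `rd (β^) = β`), so
`mulF (rd M J) f = rd M J`.  `Cd.idm` gives the `n s`.  Let `¬ ℓ ∣ j`.  `C(y ^ j) = C`, so SMI for
`z = y ^ j`, `i` and `j₀`: `fv i (y ^ j) χ = fv j₀ (y ^ j) χ = ∑_{c ∈ C} j₀(c) χ(y ^ j c)`.  For `h ∈ H` regular
there is exactly one regular `c ∈ C` with `π c = h` (the kernel `⟨y⟩` is a central `ℓ`-group); let
`th(h) = χ(y ^ j c)`, and `th(h) = 0` for `h` singular; `th` is a class function of `H`.  The class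
function `c ↦ χ(y ^ j c) - th(π c)` of `C` vanishes at the regular elements, so PRJ for `C` and `j₀`
gives `∑_c j₀(c) χ(y ^ j c) = ∑_c j₀(c) th(π c) = ∑_h J(h) th(h) = ∑_s n_s ipn th (g s)`, and
`ipn th (g s) = |H|⁻¹ ∑_h th(h) conj (g s h) = Av ℓ π (y ^ j) (g s) χ` (sum over the regular `h`). -/
def AviStmt : Prop := ∀ (ℓ : ℕ) [Fact ℓ.Prime] (M : Ideal (integralClosure ℤ ℂ)) [M.IsMaximal],
  (ℓ : integralClosure ℤ ℂ) ∈ M → ∀ (G H : Type) [Group G] [Finite G] [Group H] [Finite H] (a : ℕ)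
  (e : G → FF M) (V : Subgroup G) (γ : G → FF M) (y : G) (β : G → FF M) (π : Cu y →* H) (m K : ℕ)
  (g : Fin m → H → ℂ), Sy M ℓ a e V γ y β π m K g → ∀ i : G → ℂ, Ci M e V γ i →
  ∃ n : Fin m → ℤ, (∀ s s', ((m * K + 1 : ℕ) : ℤ) ∣ n s - n s') ∧
    ∀ j : ℕ, ¬ ℓ ∣ j → ∀ χ ∈ Irr G, fv i (y ^ j) χ = ∑ s, (n s : ℂ) * Av ℓ π (y ^ j) (g s) χ

/-- FSY: the sum over the conjugates.

Proof.  For `t ∈ T = Tg V γ` let `i_t(x) = i(t x t⁻¹)`.  (1) `fv i (t z t⁻¹) χ = fv i_t z χ` (`χ` is a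
class function).  (2) `Ci M e V γ i_t`: `ip` is clear (`t` normalises `V`).  `i_t = cj t⁻¹ i`,
`br V (cj t⁻¹ a) = cj t⁻¹ (br V a)`, `γ = cj t⁻¹ γ`: `gm`.  `lb`: for `z ∈ V` with the local block `b` the
local block of `t z t⁻¹` is `cj t b` (see DPW), `rs (Cu z) (cj t⁻¹ a) = cj t⁻¹ (rs (Cu (t z t⁻¹)) a)`.
`nz`: `∑ i(t c t⁻¹) κ(c) = ∑ i(c) κ(t⁻¹ c t)` and `c ↦ κ(t⁻¹ c t)` is again a character of `γ`.  (3) AVI
for the `i_t`, `t` the coset representatives `q.out` in the definition of `fs`, and add. -/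
def FsyStmt : Prop := ∀ (ℓ : ℕ) [Fact ℓ.Prime] (M : Ideal (integralClosure ℤ ℂ)) [M.IsMaximal],
  (ℓ : integralClosure ℤ ℂ) ∈ M → ∀ (G H : Type) [Group G] [Finite G] [Group H] [Finite H] (a : ℕ)
  (e : G → FF M) (V : Subgroup G) (γ : G → FF M) (y : G) (β : G → FF M) (π : Cu y →* H) (m K : ℕ)
  (g : Fin m → H → ℂ), Sy M ℓ a e V γ y β π m K g → ∀ i : G → ℂ, Ci M e V γ i →
  ∃ R : Fin m → ℤ, (∀ s s', ((m * K + 1 : ℕ) : ℤ) ∣ R s - R s') ∧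
    ∀ j : ℕ, ¬ ℓ ∣ j → ∀ χ ∈ Irr G,
      fs V γ i (y ^ j) χ = ∑ s, (R s : ℂ) * Av ℓ π (y ^ j) (g s) χ

/-- CCY: the function `cc` at the powers of `y`.

Proof.  `z = y ^ j`.  `(F_χ, 1) = |V|⁻¹ ∑_v fs v χ` is an integer (FCH for the trivial homomorphism,
and `v ↦ t v t⁻¹` is a bijection of `V`), so real: `cc z = |V|⁻¹ ∑_{v ∈ V} ∑_χ fs z χ conj (fs v χ)`
(compare `Helper2_AT8/CSQ.lean`).  If `v` is not a `t z t⁻¹`, `t ∈ T`, then `∑_χ fs z χ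
conj (fs v χ) = 0` by OAV (i) (all `q v q⁻¹`, `q ∈ T`, are not `T`-conjugate to `z` either).  If
`v = t z t⁻¹` then `fs v χ = fs z χ` (reindex the cosets of `C(V)` in `T`), and by OAV (iv)
`∑_χ |fs z χ|² = ∑_{s,s'} R_s R_s' ℓ ^ a ipn (g s') (g s) = ℓ ^ a (∑ R_s² + K (∑ R_s)²)`.  The number of
these `v` is `|T : T ∩ C(z)| = |T : T ∩ C(y)| = ix/m`.  `|V| = ℓ ^ a (m K + 1)` (`W ≅ V/⟨y⟩`,
`Cd.mul`). -/
def CcyStmt : Prop := ∀ (ℓ : ℕ) [Fact ℓ.Prime] (M : Ideal (integralClosure ℤ ℂ)) [M.IsMaximal],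
  (ℓ : integralClosure ℤ ℂ) ∈ M → ∀ (G H : Type) [Group G] [Finite G] [Group H] [Finite H] (a : ℕ)
  (e : G → FF M) (V : Subgroup G) (γ : G → FF M) (y : G) (β : G → FF M) (π : Cu y →* H) (m K : ℕ)
  (g : Fin m → H → ℂ), Sy M ℓ a e V γ y β π m K g → ∀ i : G → ℂ, Ci M e V γ i →
  ∀ R : Fin m → ℤ, (∀ j : ℕ, ¬ ℓ ∣ j → ∀ χ ∈ Irr G,
      fs V γ i (y ^ j) χ = ∑ s, (R s : ℂ) * Av ℓ π (y ^ j) (g s) χ) →
  ∀ j : ℕ, ¬ ℓ ∣ j → (m : ℂ) * (m * K + 1 : ℕ) * T8.cc V γ i (y ^ j) =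
    ix V γ * (∑ s, (R s : ℂ) ^ 2 + K * (∑ s, (R s : ℂ)) ^ 2)

/-- SE2: the square root, with the values at all elements.

Proof.  The proof of `T8.SerStmt` (`Helper21_AT8/SER.lean`).  There `s'(v) = n⁻¹ P(h(v))` with
`h = g/n² - 1` and `P² (1 + T) = 1 + T ^ K Q`, so `s'(v)² g(v) = P(h)² (1 + h) = 1 + h ^ K Q(h)` at all
`v ∈ V`, and `h(v) ^ K` is `|V|` times an element of `RM M` (RVC; `X` is not empty, so `h(v) ∈
π RM M`).  For `y ∈ X`: `s(y) = 1/R(y)`, `s(y)² g(y) = 1`.  `rr (s v) = rr (s 1)`: `s` is in `Rv`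
(RVC). -/
def Se2Stmt : Prop := ∀ (ℓ : ℕ) [Fact ℓ.Prime] (M : Ideal (integralClosure ℤ ℂ)) [M.IsMaximal],
  (ℓ : integralClosure ℤ ℂ) ∈ M → ℓ ≠ 2 → ∀ (G : Type) [Group G] [Finite G] (V : Subgroup G),
  IsPGroup ℓ V → (∀ a ∈ V, ∀ b ∈ V, a * b = b * a) → ∀ g : G → ℂ, Rv M V g →
  ∀ (X : Set G) (R : G → ℤ) (n : ℤ), ¬ (ℓ : ℤ) ∣ n → X.Nonempty →
  (∀ y ∈ X, y ∈ V ∧ g y = (R y : ℂ) ^ 2 ∧ (ℓ : ℤ) ∣ R y - n) →
  ∃ s : G → ℂ, Rv M V s ∧ (∀ y ∈ X, s y * R y = 1) ∧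
    (∀ v ∈ V, ∃ r ∈ RM M, s v ^ 2 * g v = 1 + Nat.card V * r) ∧
    (∀ v ∈ V, s v ∈ RM M ∧ rr M (s v) = rr M (s 1)) ∧
    ∀ N : ℕ, (∀ v ∈ V, g (v ^ N) = g v) → (∀ v ∈ V, v ^ N ∈ X ↔ v ∈ X) →
      ∀ v ∈ V, s (v ^ N) = s v

/-- CO2: the coherence theorem at the powers of `y`.

Proof.  As COH (`Helper10_AT8/COH.lean`), with SE2 instead of SER: `i` a coherent idempotent (CID),
`F_χ(z) = fs V γ i z χ`, `g₀ = cc/ix`, `R'(u) = ε u R u` (CSQ), `X` the set of the regular elements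
(not empty), `s`, `f(z) = F_χ(z) s(z)`.  This gives `rv`, `reg`, `inv`.  `y`: let `R_p` (`p : Fin m`) be
the integers of FSY, `m ≥ 1`, `R₀` one of them, `R_p = R₀ + L r_p`, `L = m K + 1 = |W|`.  CCY:
`g₀(y ^ j) = (∑ R_p² + K (∑ R_p)²)/(m L)`, and with `ρ = ∑ r_p`:
`∑ R_p² + K (∑ R_p)² = m R₀² (1 + m K) + 2 L R₀ ρ (1 + m K) + L² (∑ r_p² + K ρ²)
= m L R₀² + L² (2 R₀ ρ + ∑ r_p² + K ρ²)`, so `g₀(y ^ j) = R₀² + L r/m` with an integer `r`.  If `L = 1`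
the claim `y` is clear (all numbers are in `RM M`); let `L > 1`: `L` is a power of `ℓ` (`W` is an
`ℓ`-group), so `ℓ ∤ m`, `1/m ∈ RM M`, and `L` divides `|V|`.  So `(s(y ^ j) R₀)² ∈ 1 + L RM M`, so one of
`s(y ^ j) R₀ ± 1` is in `L RM M` (their difference `2` is a unit of the local ring, so one of them is a
unit).  The sign is determined by `rr (s(y ^ j) R₀) = rr (s(1) R₀)` (`1 ≠ -1` in `FF M`), so it does
not depend on `j` or `χ`: `s(y ^ j) R₀ = θ + L x`, `x ∈ RM M`.  So `f(y ^ j) = s(y ^ j) ∑ R_p Av_p =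
s(y ^ j) R₀ ∑ Av_p + L s(y ^ j) ∑ r_p Av_p = θ ∑ Av_p + L (...)`, because `Av_p = Av ℓ π (y ^ j) (g p) χ`
is in `RM M`: an algebraic integer (`C2.Int2Stmt`, `ZE ≤ ZI`).  The residue `rr (s(1) R₀)` is `± 1`, and
this defines `θ` (take `j = 1`). -/
def Co2Stmt : Prop := ∀ (ℓ : ℕ) [Fact ℓ.Prime] (M : Ideal (integralClosure ℤ ℂ)) [M.IsMaximal],
  (ℓ : integralClosure ℤ ℂ) ∈ M → ℓ ≠ 2 → ∀ (G H : Type) [Group G] [Finite G] [Group H] [Finite H]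
  (N : ℕ), GS G ℓ N → ∀ (e : G → FF M) (V : Subgroup G) (γ : G → FF M) (b : G → G → FF M)
  (d : G → ℕ) (c : ℕ) (ε : G → ℤ), Dat M ℓ e V γ b d c ε → (∃ u, Rg V γ u) →
  ∀ (a : ℕ) (y : G) (β : G → FF M) (π : Cu y →* H) (m K : ℕ) (g : Fin m → H → ℂ),
  Sy M ℓ a e V γ y β π m K g → ∃ θ : ℤ, (θ = 1 ∨ θ = -1) ∧
    ∀ χ ∈ Irr G, ∃ f : G → ℂ, Ch M ℓ N V γ b d ε y π m K g θ χ f

end Pool.Agent.PP.T12
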