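import Pool.Agent.AT12.Stmts2

/-!
# Squad AT12, part 3: the coset of `y`, Bessel's inequality, the number of the fixed characters

Complete proofs in the docstrings.  `Cs ℓ V γ y w m`: `V = ⟨y⟩ × ⟨w⟩`, both of order `ℓ ^ 2`, the
stabiliser of the coset `y V ^ ℓ` in `T = Tg V γ` is `T ∩ C(y)`, it acts on `⟨w⟩` by powers, freely on
`⟨w⟩ - 1`, `m = |T ∩ C(y) : C(V)| ≥ 2`.  `Sg ...`: all the data, `vk ... j k χ = ε(u) χ(u b_u)/d_u` for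
`u = y ^ j w ^ (ℓ k)`, `aa ... j χ = (1/ℓ)(θ ∑_s Av(y ^ j)(g s) + ∑_{k=1}^{ℓ-1} vk j k)`.
-/

open scoped BigOperators

noncomputable section

namespace Pool.Agent.PP.T12

open Pool.Agent.Helper51_AWC Pool.Agent.Helper79_WRA Pool.Agent.PP Pool.Agent.PP.KF
open Pool.Agent.PP.K9 Pool.Agent.PP.K9.H97 Pool.Agent.PP.H75 Pool.Agent.PP.T3 Pool.Agent.PP.T2
open Pool.Agent.PP.T8

attribute [local instance] Ideal.Quotient.field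

/-! ## 6. Group theory -/

/-- CPY: automorphisms of `C_(ℓ ^ 2) × C_(ℓ ^ 2)`.

Proof.  Compare `T8.RgbStmt` (`Helper24_AT8/RGB.lean`).  Choose `u` of order `ℓ ^ 2`,
`S = {s ∈ E | s u ∈ u V ^ ℓ}`, a subgroup, `π` from `T8.CprStmt` for `S`, `y = π(u) ∈ u V ^ ℓ`: it is fixed
by `S`, `y ^ ℓ = u ^ ℓ ≠ 1` (the `ℓ`-th power of an element of `V ^ ℓ` is `1`), so `y` has order `ℓ ^ 2`,
and `S = {s ∈ E | s y ∈ y V ^ ℓ}` (as `y V ^ ℓ = u V ^ ℓ`), so for `s ∈ E` with `s y ∈ y V ^ ℓ` we have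
`s y = y`.  If `S = 1`: first case.  Let `S ≠ 1`, `C` the image and `K` the kernel of `π`, `V = C × K`,
both stable under `S`, `y ∈ C`.  `K ≠ 1` (`S` acts faithfully and trivially on `C`).  `V/V ^ ℓ` has
order `ℓ ^ 2`: at most `ℓ ^ 2` (two generators), `v ↦ v ^ ℓ` induces a surjection of `V/V ^ ℓ` onto
`V ^ ℓ` (exponent `ℓ ^ 2`), so `|V ^ ℓ| ≤ |V/V ^ ℓ| ≤ ℓ ^ 2`, and the product is `ℓ ^ 4`.  `V/V ^ ℓ` is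
`C/C ^ ℓ × K/K ^ ℓ`, both factors are not trivial, so of order `ℓ`, so `C` and `K` are cyclic, and
`|C|, |K| ≤ ℓ ^ 2`, `|C| |K| = ℓ ^ 4`: both have order `ℓ ^ 2`; `C = ⟨y⟩`, `K = ⟨w⟩`.  `s ∈ S`:
`s w ∈ K`, `s w = w ^ μ`.  Freeness: let `s ∈ S`, `ℓ ^ 2 ∤ k`, `s (w ^ k) = w ^ k`: `w ^ (k (μ - 1)) = 1`,
so `ℓ ∣ μ - 1`, and `s` acts trivially on `V/V ^ ℓ`; `s = 1` by CPR (last claim, for the group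
generated by `s`).  So `s ↦ μ` mod `ℓ` is an injective homomorphism of `S` into the cyclic group
`(ZMod ℓ)ˣ` of order `ℓ - 1`: `S` is cyclic and `|S| ∣ ℓ - 1`. -/
def CpyStmt : Prop := ∀ (ℓ : ℕ) [Fact ℓ.Prime] (V : Type) [CommGroup V] [Finite V],
  Monoid.exponent V = ℓ ^ 2 → Nat.card V = ℓ ^ 4 →
  (∃ x y : V, (⊤ : Subgroup V) = Subgroup.closure {x, y}) →
  ∀ E : Subgroup (MulAut V), ¬ ℓ ∣ Nat.card E →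
  (∃ y : V, orderOf y = ℓ ^ 2 ∧ ∀ s ∈ E, ∀ v : V, s y = y * v ^ ℓ → s = 1) ∨
  ∃ y w : V, orderOf y = ℓ ^ 2 ∧ orderOf w = ℓ ^ 2 ∧
    (∀ v : V, ∃ i k : ℕ, v = y ^ i * w ^ k) ∧
    (∀ i i' k k' : ℕ, y ^ i * w ^ k = y ^ i' * w ^ k' →
      i ≡ i' [MOD ℓ ^ 2] ∧ k ≡ k' [MOD ℓ ^ 2]) ∧
    (∀ s ∈ E, ∀ v : V, s y = y * v ^ ℓ → s y = y) ∧
    (∀ s ∈ E, s y = y → ∃ μ : ℕ, s w = w ^ μ) ∧
    (∀ s ∈ E, s y = y → ∀ k : ℕ, ¬ ℓ ^ 2 ∣ k → s (w ^ k) = w ^ k → s = 1) ∧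
    (∃ s ∈ E, s ≠ 1 ∧ s y = y) ∧ Nat.card {s : MulAut V // s ∈ E ∧ s y = y} ∣ ℓ - 1 ∧
    ∃ s₀ ∈ E, s₀ y = y ∧ ∀ s ∈ E, s y = y → ∃ k : ℕ, s₀ ^ k * s = 1

/-- CST: a regular coset, or the structure `Cs`.

Proof.  As `T8.RtrStmt` (`Helper10_AT8/RTR.lean`): `V` is a commutative group, `E` the image of
`T = Tg V γ` in its automorphism group, with kernel `C(V)`, `|E| = ix V γ`; CPY.  The index of `C(V)` in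
`T ∩ C(y)` is the number of the `s ∈ E` with `s y = y`. -/
def CstStmt : Prop := ∀ (ℓ : ℕ) [Fact ℓ.Prime] (F : Type) [Field F], GoodF ℓ F → ∀ (G : Type)
  [Group G] [Finite G] (e : G → F) (V : Subgroup G) (γ : G → F), Ld ℓ e V γ → ¬ ℓ ∣ ix V γ →
  Monoid.exponent V = ℓ ^ 2 → Nat.card V = ℓ ^ 4 → (∃ x y : G, V = Subgroup.closure {x, y}) →
  (∃ y, Rk ℓ 2 1 V γ y) ∨ ∃ (y w : G) (m : ℕ), Cs ℓ V γ y w m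

/-- SYX: the structure at `y`.

Proof.  `β` from LOC.  `H = C(y)/⟨y⟩`, `π` the projection, `W = (V.subgroupOf (Cu y)).map π ≅ V/⟨y⟩`,
cyclic of order `ℓ ^ 2`, generated by `π(w)`.  `f = push π β` is a block (`T3.PsgStmt`, or
`C2.PsnStmt`), with the defect group `W` (compare `LBU.lean`: `hV't`).  As in `T3.Qt2Stmt`
(`Helper43_AT3/QT2.lean`) for the group `C(y)`, the block `β`, `V.subgroupOf (Cu y)` (`T3.LsbStmt`) and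
the normal subgroup `⟨y⟩` (use `T8.Qt3Stmt` for `Q = ⟨y⟩` in the group `C(y)`, where `N(Q) = C(y)`,
`br_Q β = β`): there is `δ` with `Ld ℓ f W δ`, `ix W δ ≤ m`, and every `t' ∈ Tg W δ` acts on `W` as an
element `t ∈ T ∩ C(y)` (up to conjugation with `n ∈ N(V) ∩ C(y)`, `Fe`).  `Fr W δ`: let `t' ∈ Tg W δ`
commute with `1 ≠ v' ∈ W`; `v' = π(n v n⁻¹)`, `v = y ^ i w ^ k ∈ V`, `ℓ ^ 2 ∤ k`; `t v t⁻¹ ∈ v ⟨y⟩`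
(`n` centralises `y`), `t w ^ k t⁻¹ = w ^ (μ k)`, so `w ^ (μ k - k) ∈ ⟨y⟩`, so it is `1` (`uni`), `t`
commutes with `w ^ k`, `t ∈ C(V)` (`fre`), so `t'` centralises `W`.  `m ≤ ln f` (LBY, `Cs.cyc`),
`ln f ≤ ix W δ` (`T8.LfrStmt`), so `ix W δ = m = ln f`.  `3 m < ℓ ^ 2 = |W|` (`m ≤ ℓ - 1`; for `ℓ = 3`:
`m = 2`, `6 < 9`).  STF (the type `Fin (ix W δ)` is `Fin m`). -/
def SyxStmt : Prop := ∀ (ℓ : ℕ) [Fact ℓ.Prime] (M : Ideal (integralClosure ℤ ℂ)) [M.IsMaximal],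
  (ℓ : integralClosure ℤ ℂ) ∈ M → ℓ ≠ 2 → ∀ (G : Type) [Group G] [Finite G] (e : G → FF M)
  (V : Subgroup G) (γ : G → FF M), Ld ℓ e V γ → ∀ (y w : G) (m : ℕ), Cs ℓ V γ y w m →
  ∃ (H : Type) (_ : Group H) (_ : Finite H) (β : G → FF M) (π : Cu y →* H) (K : ℕ)
    (g : Fin m → H → ℂ), Sy M ℓ 2 e V γ y β π m K g

/-- CRG: the elements of the cosets `y ^ j V ^ ℓ`.

Proof.  (ii) Let `t u t⁻¹ = u'`, `u = y ^ j w ^ (ℓ k)`, `u' = y ^ j' w ^ (ℓ k')`, `j' = j + ℓ i` (or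
`j = j' + ℓ i`).  Let `c j = 1` modulo `ℓ ^ 2`.  `u ^ c = y w ^ (ℓ k c)`, `u' ^ c ∈ y V ^ ℓ`, and
`t w ^ (ℓ k c) t⁻¹ = (t w t⁻¹) ^ (ℓ k c) ∈ V ^ ℓ`, so `t y t⁻¹ ∈ y V ^ ℓ` (`V` is abelian), `t y = y t`
(`stb`).  So `y ^ j w ^ (ℓ μ k) = y ^ j' w ^ (ℓ k')`, `j = j'` modulo `ℓ ^ 2` (`uni`).  (i) `u ≠ 1` by
`uni`; if `t ∈ T` commutes with `u` then by (ii) `t y = y t`, so `t` commutes with `w ^ (ℓ k)` and is in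
`C(V)` by `fre`.  (iii) The `t ∈ T` with `t u t⁻¹ = y ^ j w ^ (ℓ k')` for some `k'` are those of `T ∩ C(y)`,
and the map `t C(V) ↦ t u t⁻¹` is injective on `(T ∩ C(y))/C(V)` (if `t u t⁻¹ = t₁ u t₁⁻¹` then
`t₁⁻¹ t` commutes with `u`, so it is in `C(V)` by (i)); `t u t⁻¹ = y ^ j w ^ (ℓ μ k)` determines
`k' = μ k` modulo `ℓ`, not `0` (otherwise `w ^ (ℓ k) = 1`); so there are `m` such `k'` with
`1 ≤ k' < ℓ`. -/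
def CrgStmt : Prop := ∀ (ℓ : ℕ) [Fact ℓ.Prime] (F : Type) [Field F], GoodF ℓ F → ℓ ≠ 2 →
  ∀ (G : Type) [Group G] [Finite G] (e : G → F) (V : Subgroup G) (γ : G → F), Ld ℓ e V γ →
  ∀ (y w : G) (m : ℕ), Cs ℓ V γ y w m →
  (∀ j k : ℕ, ¬ ℓ ∣ j → ¬ ℓ ∣ k → Rg V γ (y ^ j * w ^ (ℓ * k))) ∧
  (∀ j j' k k' : ℕ, ¬ ℓ ∣ j → j ≡ j' [MOD ℓ] → ∀ t ∈ Tg V γ,
    t * (y ^ j * w ^ (ℓ * k)) * t⁻¹ = y ^ j' * w ^ (ℓ * k') → t * y = y * t ∧ j ≡ j' [MOD ℓ ^ 2] ∧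
      (ℓ ∣ k ↔ ℓ ∣ k')) ∧
  ∀ j k : ℕ, ¬ ℓ ∣ j → ¬ ℓ ∣ k →
    {k' : ℕ | 1 ≤ k' ∧ k' < ℓ ∧ ∃ t ∈ Tg V γ,
      t * (y ^ j * w ^ (ℓ * k)) * t⁻¹ = y ^ j * w ^ (ℓ * k')}.ncard = m

/-- CSM: the average of an invariant function over the coset.

Proof.  `V ^ ℓ = {y ^ (ℓ i) w ^ (ℓ k) | i, k < ℓ}`, `ℓ ^ 2` elements (PWU, `gen`, `uni`).  For the given
`j, i, k`: `c = (j + ℓ i)/j` modulo `ℓ ^ 2` is `1` modulo `ℓ`, and `(y ^ j w ^ (ℓ k)) ^ c =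
y ^ (j + ℓ i) w ^ (ℓ k)`; by `GS.gen` (for `j = 1`, `j' = c`) there is `r` with `v ^ N ^ r = v ^ c` for all
`v ∈ V`, so `f(y ^ (j + ℓ i) w ^ (ℓ k)) = f(y ^ j w ^ (ℓ k))`. -/
def CsmStmt : Prop := ∀ (ℓ : ℕ) [Fact ℓ.Prime] (F : Type) [Field F], GoodF ℓ F → ℓ ≠ 2 →
  ∀ (G : Type) [Group G] [Finite G] (N : ℕ), GS G ℓ N → ∀ (e : G → F) (V : Subgroup G) (γ : G → F),
  Ld ℓ e V γ → ∀ (y w : G) (m : ℕ), Cs ℓ V γ y w m → ∀ f : G → ℂ, (∀ v ∈ V, f (v ^ N) = f v) →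
  ∀ j : ℕ, ¬ ℓ ∣ j →
  (∀ j' k : ℕ, j ≡ j' [MOD ℓ] → f (y ^ j' * w ^ (ℓ * k)) = f (y ^ j * w ^ (ℓ * k))) ∧
  (Nat.card (Uw (ℓ ^ 1) V) : ℂ)⁻¹ * ∑ᶠ v : Uw (ℓ ^ 1) V, f (y ^ j * v) =
    (ℓ : ℂ)⁻¹ * ∑ k ∈ Finset.range ℓ, f (y ^ j * w ^ (ℓ * k))

/-! ## 7. The numbers of a fixed character -/

/-- AVN: the numbers `Av` and `vk` of a fixed character depend only on `j` modulo `ℓ`.

Proof.  `GS.gen` gives `r` with `(v ^ j) ^ N ^ r = v ^ j'` for all `ℓ`-elements `v`.  For `s` regular in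
`C(y)`: `(y ^ j s) ^ N ^ r = y ^ j' s`, so `χ(y ^ j' s) = χ(y ^ j s)`.  `vk`: `f` from `Sg.coh`,
`vk j k χ = f(y ^ j w ^ (ℓ k))` (CRG (i)), CSM. -/
def AvnStmt : Prop := ∀ (ℓ : ℕ) [Fact ℓ.Prime] (M : Ideal (integralClosure ℤ ℂ)) [M.IsMaximal],
  (ℓ : integralClosure ℤ ℂ) ∈ M → ∀ (G H : Type) [Group G] [Finite G] [Group H] [Finite H]
  (N : ℕ) (e : G → FF M) (V : Subgroup G) (γ : G → FF M) (b : G → G → FF M) (d : G → ℕ) (c : ℕ)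
  (ε : G → ℤ) (y w : G) (β : G → FF M) (π : Cu y →* H) (m K : ℕ) (g : Fin m → H → ℂ) (θ : ℤ),
  Sg M ℓ N e V γ b d c ε y w β π m K g θ → ∀ χ ∈ Rf M N e, ∀ j j' : ℕ, ¬ ℓ ∣ j →
  j ≡ j' [MOD ℓ] → (∀ p : H → ℂ, Av ℓ π (y ^ j) p χ = Av ℓ π (y ^ j') p χ) ∧
    ∀ k : ℕ, ¬ ℓ ∣ k → vk M ℓ b d ε y w j k χ = vk M ℓ b d ε y w j' k χ

/-- AVL: the number `aa` is an integer at `M`; it is not divisible by `ℓ` if the height is `0`.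

Proof.  `f` from `Sg.coh` for `χ`.  AVB (`k = 1`, `W = Uw (ℓ ^ 1) V`) for `f` and `y ^ j`: the average
`A` of `f` over the coset is in `RM M`; CSM: `A = (1/ℓ)(f(y ^ j) + ∑_{k=1}^{ℓ-1} f(y ^ j w ^ (ℓ k)))`, and
`f(y ^ j w ^ (ℓ k)) = vk j k χ` (`Ch.reg`, CRG (i)).  So `A - aa j χ = (1/ℓ)(f(y ^ j) -
θ bq (y ^ j) χ)`, which is in `ℓ RM M` by `Ch.y` (`m K + 1 = |W| = ℓ ^ 2`, as `|V| = ℓ ^ 4` and
`|⟨y⟩| = ℓ ^ 2`).  So `aa ∈ RM M`.  If `aa/ℓ ∈ RM M` then `A/ℓ ∈ RM M`, and by AVB for the point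
`u = y ^ j w ^ ℓ` of the same coset (the same average) `f(u) - A ∈ ℓ RM M`, so
`± vv M b d u χ/ℓ ∈ RM M`, against the hypothesis (`u` is regular). -/
def AvlStmt : Prop := ∀ (ℓ : ℕ) [Fact ℓ.Prime] (M : Ideal (integralClosure ℤ ℂ)) [M.IsMaximal],
  (ℓ : integralClosure ℤ ℂ) ∈ M → ∀ (G H : Type) [Group G] [Finite G] [Group H] [Finite H]
  (N : ℕ) (e : G → FF M) (V : Subgroup G) (γ : G → FF M) (b : G → G → FF M) (d : G → ℕ) (c : ℕ)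
  (ε : G → ℤ) (y w : G) (β : G → FF M) (π : Cu y →* H) (m K : ℕ) (g : Fin m → H → ℂ) (θ : ℤ),
  Sg M ℓ N e V γ b d c ε y w β π m K g θ → ∀ χ ∈ Rf M N e, ∀ j : ℕ, ¬ ℓ ∣ j →
  aa M ℓ b d ε y w π g θ j χ ∈ RM M ∧
  ((∀ u, Rg V γ u → vv M b d u χ / ℓ ∉ RM M) → aa M ℓ b d ε y w π g θ j χ / ℓ ∉ RM M)

/-- GAL: the Galois conjugates.

Proof.  (i) `C2.Int2Stmt` (`Helper48_C2/INT2.lean`, no hypotheses) for `g s` and `g s'` (`ZE ≤ ZI`),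
subtract.  (ii) `ℓ aa j χ = θ ∑_s Av(y ^ j)(g s) + ∑_{k=1}^{ℓ-1} vk j k χ`.  The first part as in (i).
`w ^ (ℓ k)` depends only on `k` modulo `ℓ`; so (reindex `k ↦ j k` modulo `ℓ`)
`∑_k vk j k χ = ∑_k ε(u_k ^ j) vv(u_k ^ j) χ`, `u_k = y w ^ (ℓ k)`, `ε(u_k ^ j) = ε(u_k)`,
`b(u_k ^ j) = b(u_k)`, `d(u_k ^ j) = d(u_k)` (DPW), and INR for `u_k`, `q = ℓ ^ 2`.  (iii) If all
`Av(y)(g s) χ` are equal then by (i) and the Galois action so are all `Av(y ^ j)(g s) χ`, `ℓ ∤ j` (the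
polynomial `P` with `P(ζ) = 0` is divisible by the cyclotomic polynomial), so the first part is
`θ m Av(y ^ j)(g 0) χ` (`m ≥ 1`).  In the second part group the `k` (mod `ℓ`, not `0`) into the classes
`{k' | y w ^ (ℓ k') is T-conjugate to y w ^ (ℓ k)}`, of `m` elements each (CRG (iii), an equivalence
relation); `ε(u_k)`, `vv(u_k ^ j) χ` are constant on a class (DPW: if `u_k' = t u_k t⁻¹` then
`u_k' ^ j = t u_k ^ j t⁻¹`).  So the second part is `m` times a sum over representatives.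
(iv) INR for `u = y w ^ ℓ`. -/
def GalStmt : Prop := ∀ (ℓ : ℕ) [Fact ℓ.Prime] (M : Ideal (integralClosure ℤ ℂ)) [M.IsMaximal],
  (ℓ : integralClosure ℤ ℂ) ∈ M → ∀ (G H : Type) [Group G] [Finite G] [Group H] [Finite H]
  (N : ℕ) (e : G → FF M) (V : Subgroup G) (γ : G → FF M) (b : G → G → FF M) (d : G → ℕ) (c : ℕ)
  (ε : G → ℤ) (y w : G) (β : G → FF M) (π : Cu y →* H) (m K : ℕ) (g : Fin m → H → ℂ) (θ : ℤ),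
  Sg M ℓ N e V γ b d c ε y w β π m K g θ → ∀ ζ : ℂ, IsPrimitiveRoot ζ (ℓ ^ 2) → ∀ χ ∈ Irr G,
  (∀ s s' : Fin m, ∃ n : ℕ → ℤ, ∀ j : ℕ, Av ℓ π (y ^ j) (g s) χ - Av ℓ π (y ^ j) (g s') χ =
    ∑ i ∈ Finset.range (ℓ ^ 2), (n i : ℂ) * ζ ^ (i * j)) ∧
  (∃ n : ℕ → ℤ, ∀ j : ℕ, ¬ ℓ ∣ j → ℓ * aa M ℓ b d ε y w π g θ j χ =
    ∑ i ∈ Finset.range (ℓ ^ 2), (n i : ℂ) * ζ ^ (i * j)) ∧
  ((∀ s s' : Fin m, Av ℓ π y (g s) χ = Av ℓ π y (g s') χ) →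
    ∃ n : ℕ → ℤ, ∀ j : ℕ, ¬ ℓ ∣ j → ℓ * aa M ℓ b d ε y w π g θ j χ =
      m * ∑ i ∈ Finset.range (ℓ ^ 2), (n i : ℂ) * ζ ^ (i * j)) ∧
  ∃ n : ℕ → ℤ, ∀ j : ℕ, ¬ ℓ ∣ j → vk M ℓ b d ε y w j j χ =
    ∑ i ∈ Finset.range (ℓ ^ 2), (n i : ℂ) * ζ ^ (i * j)

/-! ## 8. Bessel's inequality -/

/-- BSF: orthogonal vectors which agree on a set.

Proof.  Let `x = ∑_{χ ∈ R} |v 0 χ|²`, `w = ∑_{i < n} v i`: `|w|² = n c` by orthogonality, and for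
`χ ∈ R` `w χ = n v 0 χ`.  So `n² x = ∑_{χ ∈ R} |w χ|² ≤ |w|² = n c`. -/
def BsfStmt : Prop := ∀ (G : Type) [Group G] [Finite G] (R : Set (G → ℂ)), R ⊆ Irr G →
  ∀ (n : ℕ) (v : ℕ → (G → ℂ) → ℂ) (c : ℝ), 0 < n →
  (∀ i < n, ∀ i' < n, i ≠ i' → ∑ᶠ χ ∈ Irr G, v i χ * starRingEnd ℂ (v i' χ) = 0) →
  (∀ i < n, ∑ᶠ χ ∈ Irr G, v i χ * starRingEnd ℂ (v i χ) = c) →
  (∀ i < n, ∀ χ ∈ R, v i χ = v 0 χ) → n * ∑ᶠ χ ∈ R, Complex.normSq (v 0 χ) ≤ c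

/-- GRM: the Gram matrix.

Proof.  (i) If `j = j'` modulo `ℓ ^ 2` then `y ^ j = y ^ j'`, OAV (iv) and `Cd.gr` (`ipn (g s') (g s)`).
Otherwise OAV (iii) with CRG (ii) (`k = k' = 0`, the element `t`).  (ii) OAV (ii) with CRG (ii): a
`T`-conjugate of `y ^ j' w ^ (ℓ k)`, `ℓ ∤ k`, is not `y ^ j` (last claim of (ii)).  (iii) DOR; by CRG (ii)
the elements are not conjugate if `j ≠ j'` modulo `ℓ ^ 2`; if they are conjugate then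
`ε ε' = 1` (DPW). -/
def GrmStmt : Prop := ∀ (ℓ : ℕ) [Fact ℓ.Prime] (M : Ideal (integralClosure ℤ ℂ)) [M.IsMaximal],
  (ℓ : integralClosure ℤ ℂ) ∈ M → ∀ (G H : Type) [Group G] [Finite G] [Group H] [Finite H]
  (N : ℕ) (e : G → FF M) (V : Subgroup G) (γ : G → FF M) (b : G → G → FF M) (d : G → ℕ) (c : ℕ)
  (ε : G → ℤ) (y w : G) (β : G → FF M) (π : Cu y →* H) (m K : ℕ) (g : Fin m → H → ℂ) (θ : ℤ),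
  Sg M ℓ N e V γ b d c ε y w β π m K g θ → ∀ j j' : ℕ, ¬ ℓ ∣ j → j ≡ j' [MOD ℓ] →
  (∀ s s' : Fin m, (j ≡ j' [MOD ℓ ^ 2] →
      ∑ᶠ χ ∈ Irr G, Av ℓ π (y ^ j) (g s) χ * starRingEnd ℂ (Av ℓ π (y ^ j') (g s') χ) =
        (ℓ : ℂ) ^ 2 * ((if s = s' then 1 else 0) + K)) ∧
    (¬ j ≡ j' [MOD ℓ ^ 2] →
      ∑ᶠ χ ∈ Irr G, Av ℓ π (y ^ j) (g s) χ * starRingEnd ℂ (Av ℓ π (y ^ j') (g s') χ) = 0)) ∧
  (∀ (s : Fin m) (k : ℕ), ¬ ℓ ∣ k → ∑ᶠ χ ∈ Irr G,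
    Av ℓ π (y ^ j) (g s) χ * starRingEnd ℂ (vk M ℓ b d ε y w j' k χ) = 0) ∧
  ∀ k k' : ℕ, ¬ ℓ ∣ k → ¬ ℓ ∣ k' →
    ((j ≡ j' [MOD ℓ ^ 2] ∧ ∃ t ∈ Tg V γ,
        t * (y ^ j * w ^ (ℓ * k)) * t⁻¹ = y ^ j * w ^ (ℓ * k')) →
      ∑ᶠ χ ∈ Irr G, vk M ℓ b d ε y w j k χ * starRingEnd ℂ (vk M ℓ b d ε y w j' k' χ) =
        (ℓ : ℂ) ^ 4) ∧
    (¬ (j ≡ j' [MOD ℓ ^ 2] ∧ ∃ t ∈ Tg V γ,
        t * (y ^ j * w ^ (ℓ * k)) * t⁻¹ = y ^ j * w ^ (ℓ * k')) →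
      ∑ᶠ χ ∈ Irr G, vk M ℓ b d ε y w j k χ * starRingEnd ℂ (vk M ℓ b d ε y w j' k' χ) = 0)

/-- BES: Bessel's inequality for the fixed characters.

Proof.  `m K + 1 = ℓ ^ 2`.  BSF with `R = Rf`, `n = ℓ`, `j_i = j + ℓ i` (all different modulo `ℓ ^ 2`,
equal modulo `ℓ`, AVN); GRM gives the norms:
(1) `v i = Av(y ^ (j_i))(g s) - Av(y ^ (j_i))(g s')`: `c = 2 ℓ ^ 2`;
(2) `v i = ℓ aa j_i = θ ∑_s Av(y ^ (j_i))(g s) + ∑_k vk j_i k`: `ℓ ^ 2 (m + m² K) + ∑_k m ℓ ^ 4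
= m ℓ ^ 4 + (ℓ - 1) m ℓ ^ 4 = m ℓ ^ 5` (CRG (iii): `m` numbers `k'` for each `k`), so
`ℓ ∑_R ℓ² |aa|² ≤ m ℓ ^ 5`;
(3) `v i = vk j_i k`: `c = ℓ ^ 4`;
(4) `m = ℓ - 1`: by CRG (iii) all the `y ^ j w ^ (ℓ k)`, `1 ≤ k < ℓ`, are conjugate under `T`, so all
`vk j k χ` are equal (DPW) and `ℓ aa j χ = θ ∑_s Av(y ^ j)(g s) χ + (ℓ - 1) vk j j χ`,
`ℓ (aa j χ - vk j j χ) = θ ∑_s Av(y ^ j)(g s) χ - vk j j χ`, of norm squared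
`m ℓ ^ 4 + ℓ ^ 4 = ℓ ^ 5` (`vk j_i j_i = vk j_i j`, as `w ^ (ℓ k)` depends only on `k` modulo `ℓ`). -/
def Be2Stmt : Prop := ∀ (ℓ : ℕ) [Fact ℓ.Prime] (M : Ideal (integralClosure ℤ ℂ)) [M.IsMaximal],
  (ℓ : integralClosure ℤ ℂ) ∈ M → ∀ (G H : Type) [Group G] [Finite G] [Group H] [Finite H]
  (N : ℕ) (e : G → FF M) (V : Subgroup G) (γ : G → FF M) (b : G → G → FF M) (d : G → ℕ) (c : ℕ)
  (ε : G → ℤ) (y w : G) (β : G → FF M) (π : Cu y →* H) (m K : ℕ) (g : Fin m → H → ℂ) (θ : ℤ),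
  Sg M ℓ N e V γ b d c ε y w β π m K g θ → ∀ j : ℕ, ¬ ℓ ∣ j →
  (∀ s s' : Fin m, s ≠ s' → ∑ᶠ χ ∈ Rf M N e,
    Complex.normSq (Av ℓ π (y ^ j) (g s) χ - Av ℓ π (y ^ j) (g s') χ) ≤ 2 * ℓ) ∧
  ∑ᶠ χ ∈ Rf M N e, Complex.normSq (aa M ℓ b d ε y w π g θ j χ) ≤ m * ℓ ^ 2 ∧
  (∀ k : ℕ, ¬ ℓ ∣ k → ∑ᶠ χ ∈ Rf M N e, Complex.normSq (vk M ℓ b d ε y w j k χ) ≤ ℓ ^ 3) ∧
  (m = ℓ - 1 → ∑ᶠ χ ∈ Rf M N e,
    Complex.normSq (aa M ℓ b d ε y w π g θ j χ - vk M ℓ b d ε y w j j χ) ≤ ℓ ^ 2)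

/-! ## 9. The number of the fixed characters -/

/-- CNB: the count.

Proof.  `P = |J| > 0`, `ℓ ≥ 3`.  Let `A = {r | a j r ≠ 0 for some j}`, `A_c` the `r ∈ A` with
`X j r s = X j r s'` for all `j, s, s'`, `A_n` the other `r ∈ A`, `Z` the complement of `A`.
(1) For `r ∈ A_n` define `s ~ s'` by: `X j r s = X j r s'` for all `j`.  There are at least two classes,
so at least `m - 1` pairs `{s, s'}` with `s ≁ s'`, so `∑_j ∑_{s<s'} |X j r s - X j r s'|² ≥ (m - 1) P`.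
Sum over `A_n` and use the hypothesis `(2 ℓ` for each pair and each `j)`: `(m - 1) P |A_n| ≤
P (m (m - 1)/2) 2 ℓ`, so `|A_n| ≤ m ℓ`.  (2) `m² P |A_c| + P |A_n| ≤ P m ℓ²`.  So
`|A| = |A_c| + |A_n| ≤ ℓ²/m + |A_n| (1 - 1/m²) ≤ ℓ²/m + m ℓ - ℓ/m`, i.e.
`m |A| ≤ ℓ² + m² ℓ - ℓ`.  (3) If `m = ℓ - 1`: `m |A| ≤ ℓ (ℓ - 1) + ℓ (ℓ - 1)² = ℓ² m`, so `|A| ≤ ℓ²`.
For `r ∈ Z` `a = 0`, `∑_j |a - v|² = ∑_j |v|² ≥ ℓ² P`, and `∑_r ∑_j |a - v|² ≤ ℓ² P`: `|Z| ≤ 1`.  (4) If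
`m < ℓ - 1`: `m n = ℓ - 1` with `n ≥ 2`, so `2 m ≤ ℓ - 1`, `ℓ ≥ 5`.  `(m - 2)(2 m - (ℓ - 1)) ≤ 0` gives
`2 m² ≤ (ℓ + 3) m - 2 (ℓ - 1)`, so `m |A| ≤ ℓ (ℓ - 1) + ℓ m² ≤ ℓ m (ℓ + 3)/2`, `2 |A| ≤ ℓ (ℓ + 3)`.
`|Z| ℓ² P ≤ ℓ³ P`: `|Z| ≤ ℓ`.  `2 |ρ| ≤ ℓ (ℓ + 3) + 2 ℓ = ℓ² + 5 ℓ ≤ 2 ℓ² + 2` (`ℓ² - 5 ℓ + 2 ≥ 0`). -/
def CnbStmt : Prop := ∀ (ℓ m : ℕ) (J ρ : Type) [Fintype J] [Fintype ρ] (X : J → ρ → Fin m → ℂ)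
  (a v : J → ρ → ℂ), Odd ℓ → 3 ≤ ℓ → 2 ≤ m → m ∣ ℓ - 1 → 0 < Fintype.card J →
  (∀ j s s', s ≠ s' → ∑ r, Complex.normSq (X j r s - X j r s') ≤ 2 * ℓ) →
  (∀ j, ∑ r, Complex.normSq (a j r) ≤ m * ℓ ^ 2) →
  (∀ j, ∑ r, Complex.normSq (v j r) ≤ ℓ ^ 3) →
  (m = ℓ - 1 → ∀ j, ∑ r, Complex.normSq (a j r - v j r) ≤ ℓ ^ 2) →
  (∀ r s s', (∀ j, X j r s = X j r s') ∨
    (Fintype.card J : ℝ) ≤ ∑ j, Complex.normSq (X j r s - X j r s')) →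
  (∀ r, (∃ j, a j r ≠ 0) → (Fintype.card J : ℝ) ≤ ∑ j, Complex.normSq (a j r)) →
  (∀ r, (∃ j, a j r ≠ 0) → (∀ j s s', X j r s = X j r s') →
    (m : ℝ) ^ 2 * Fintype.card J ≤ ∑ j, Complex.normSq (a j r)) →
  (∀ r, (∀ j, a j r = 0) → (ℓ : ℝ) ^ 2 * Fintype.card J ≤ ∑ j, Complex.normSq (v j r)) →
  Fintype.card ρ ≤ ℓ ^ 2 + 1

/-- FX1: the number of the fixed characters is larger than the number of modular characters.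

Proof.  As `T2.FxsStmt` (`Helper*_AT2`, row FXS) with `T2.StgStmt`: `|R| = ln e + |G|⁻¹ ∑_g ∑_{χ ∈ e}
|χ(g)|²`, the sum over the `g` whose `ℓ`-part `x` has order `ℓ`.  Let `z ∈ V` have order `ℓ`, `b` its
local block (LOC), `χ ∈ e`: `χ(z b^) ≠ 0` (`K9.NzStmt`; `V` is good for `b` by LSB), so
`χ(z s) ≠ 0` for some regular `s ∈ C(z)`; so the sum is positive, and the integer `|R| - ln e` is
at least one. -/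
def Fx1Stmt : Prop := ∀ (ℓ : ℕ) [Fact ℓ.Prime] (M : Ideal (integralClosure ℤ ℂ)) [M.IsMaximal],
  (ℓ : integralClosure ℤ ℂ) ∈ M → ∀ (G : Type) [Group G] [Finite G] (N : ℕ), GS G ℓ N →
  ∀ (e : G → FF M) (V : Subgroup G) (γ : G → FF M), Ld ℓ e V γ → V ≠ ⊥ →
  ln e + 1 ≤ (Rf M N e).ncard

/-- LBZ: the bound for the number of the fixed characters.

Proof.  CNB with `J` the set of the `j < ℓ ^ 2` prime to `ℓ`, `P = |J| = ℓ (ℓ - 1)`, `ρ = Rf M N e`,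
`X j χ s = Av ℓ π (y ^ j) (g s) χ`, `a j χ = aa j χ`, `v j χ = vk j j χ`.  The sums: BE2.  Let `ζ` be
of order `ℓ ^ 2`.  (i) `X j χ s - X j χ s' = ∑ n_i ζ ^ (i j)` (GAL (i)): if it is `0` for `j = 1` then for
all `j` prime to `ℓ` (Galois; or by the divisibility of the polynomial by the cyclotomic
polynomial), otherwise NRM with `a = 2`, `s = 0`, `h = 0` (algebraic integers are in `RM M`); the
same if it is not `0` for another `j₀` (replace `ζ` by `ζ ^ j₀` and reindex).  (ii) If `aa j χ ≠ 0` for some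
`j`: NRM with `s = 1`, `h = 0`: GAL (ii) and AVL.  (iii) In addition all `X j χ s = X j χ s'`: GAL (iii),
`aa j χ/m = (1/ℓ) ∑ n_i ζ ^ (i j)` is in `RM M` (`ℓ ∤ m`), NRM.  (iv) `aa j χ = 0` for all `j`: by AVL
there is a regular `u` with `vv M b d u χ/ℓ ∈ RM M`, and then `vv M b d u' χ/ℓ ∈ RM M` for all
regular `u'` (DCG, see the proof of HGT), also `vv M b d u' χ ≠ 0`; NRM with `s = 0`, `h = 1` and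
GAL (iv) (`vk j j χ = ± vv(y ^ j w ^ (ℓ j)) χ`). -/
def LbzStmt : Prop := ∀ (ℓ : ℕ) [Fact ℓ.Prime] (M : Ideal (integralClosure ℤ ℂ)) [M.IsMaximal],
  (ℓ : integralClosure ℤ ℂ) ∈ M → ∀ (G H : Type) [Group G] [Finite G] [Group H] [Finite H]
  (N : ℕ) (e : G → FF M) (V : Subgroup G) (γ : G → FF M) (b : G → G → FF M) (d : G → ℕ) (c : ℕ)
  (ε : G → ℤ) (y w : G) (β : G → FF M) (π : Cu y →* H) (m K : ℕ) (g : Fin m → H → ℂ) (θ : ℤ),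
  Sg M ℓ N e V γ b d c ε y w β π m K g θ → (Rf M N e).ncard ≤ ℓ ^ 2 + 1

/-! ## 10. The theorem -/

/-- LBC: the bound for the number of modular characters for `C_(ℓ ^ 2) × C_(ℓ ^ 2)`.

Proof.  CST (`K9.InxStmt`).  First case: `T8.Lb8Stmt` with `a = 2`, `k = 1`: `ix |V| ≤ ℓ² n` by
`T8.XctStmt` (`ix |V ^ ℓ| ≤ n`, `|V| = ℓ ^ 4`, `|V ^ ℓ| = ℓ ^ 2`), `|V| = ℓ ^ 2 |V ^ ℓ|`.  Second case: `N`
from `T2.Pr2Stmt`, the data from DAT, SYX, CO2 (a regular element: CRG (i)); so `Sg`, LBZ: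
`|R| ≤ ℓ ^ 2 + 1`, and FX1. -/
def LbcStmt : Prop := ∀ (ℓ : ℕ) [Fact ℓ.Prime] (M : Ideal (integralClosure ℤ ℂ)) [M.IsMaximal],
  (ℓ : integralClosure ℤ ℂ) ∈ M → ℓ ≠ 2 → ∀ (G : Type) [Group G] [Finite G] (e : G → FF M)
  (V : Subgroup G) (γ : G → FF M), Ld ℓ e V γ → Monoid.exponent V = ℓ ^ 2 →
  Nat.card V = ℓ ^ 4 → (∃ x y : G, V = Subgroup.closure {x, y}) → ln e ≤ ℓ ^ 2

/-- LTC: the bound for all the types.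

Proof.  `Ty8`: `T8.Lt8Stmt`.  `Tg2`, `a ≥ 3`: `Tb`, `T8.Lt8Stmt`.  `Tg2`, `a = 2`: `|V| ≤ ℓ ^ 4` (two
generators of order at most `ℓ ^ 2`); if `|V| = ℓ ^ 4`: LBC.  Otherwise `Ty ℓ 2 V (ix V γ)`,
`T2.Lb2Stmt`. -/
def LtcStmt : Prop := ∀ (ℓ : ℕ) [Fact ℓ.Prime] (M : Ideal (integralClosure ℤ ℂ)) [M.IsMaximal],
  (ℓ : integralClosure ℤ ℂ) ∈ M → ℓ ≠ 2 → ∀ (G : Type) [Group G] [Finite G] (e : G → FF M)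
  (V : Subgroup G) (γ : G → FF M), Ld ℓ e V γ → ∀ a : ℕ, Ty12 ℓ a V γ → ln e ≤ ℓ ^ a

/-- TCC: the types are closed under quotients.

Proof.  `T8.Tc8Stmt` for `Ty8`; two generators map to two generators. -/
def TccStmt : Prop := ∀ (ℓ : ℕ) [Fact ℓ.Prime] (F : Type) [Field F], GoodF ℓ F → ∀ (G A : Type)
  [Group G] [Finite G] [Group A] [Finite A] (e : G → F) (V : Subgroup G) (γ : G → F)
  (f : A → F) (V' : Subgroup A) (γ' : A → F), Ld ℓ e V γ → Ld ℓ f V' γ' → ¬ ℓ ∣ ix V γ →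
  ∀ a : ℕ, Ty12 ℓ a V γ → Monoid.exponent V' = ℓ ^ a → Fq V γ V' γ' → Ty12 ℓ a V' γ'

/-- TCA: the main theorem for block idempotents.

Proof.  As `T8.T8aStmt` (`Helper3_AT8/T8A.lean`) with LTC, TCC instead of LT8, TC8. -/
def TcaStmt : Prop := ∀ (ℓ : ℕ) [Fact ℓ.Prime] (M : Ideal (integralClosure ℤ ℂ)) [M.IsMaximal],
  (ℓ : integralClosure ℤ ℂ) ∈ M → ℓ ≠ 2 → ∀ (a : ℕ) (G : Type) [Group G] [Finite G]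
  (e : G → FF M) (V : Subgroup G) (γ : G → FF M), Ld ℓ e V γ → Ty12 ℓ a V γ → YY ℓ ⊤ e = 0

/-- FNC: the final theorem.

Proof.  As `T8.Fn8Stmt` (`Helper24_AT8/FN8.lean`) with TCA instead of T8A: only the second case
changes (`2 ≤ a` instead of `3 ≤ a`, `Tg2` instead of `Tb`). -/
def FncStmt : Prop := ∀ (ℓ : ℕ) [Fact ℓ.Prime] (M : Ideal (integralClosure ℤ ℂ)) [M.IsMaximal],
  (ℓ : integralClosure ℤ ℂ) ∈ M → ℓ ≠ 2 → ∀ (G : Type) [Group G] [Finite G],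
  opCore ℓ G ≤ Subgroup.center G → ∀ χ ∈ Irr G, ∀ D : Subgroup G, ML.IsDef ℓ M χ D →
  (∀ x ∈ D, ∀ y ∈ D, x * y = y * x) →
  ∀ th ∈ IrrBlock M (Subgroup.centralizer (D : Set G)).subtype χ,
  ∀ (A : Type) [Group A] [Finite A] (p : G →* A), Function.Surjective p → p.ker = opCore ℓ G →
  ∀ a : ℕ, Monoid.exponent (D.map p) = ℓ ^ a →
  ((∃ k : ℕ, 0 < k ∧ k ≤ a ∧
      (Nat.card (D.map p) ≤ ℓ ^ (2 * k) * Nat.card (Uw ℓ (D.map p)) ∨ In M D th ℓ ∨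
        (In M D th (ℓ ^ (2 * k)) ∧ Fd ℓ M D th)) ∧
      Nat.card (D.map p) ≤ ℓ ^ (a + k - 1) * Nat.card (Uw (ℓ ^ k) (D.map p)) ∧
      ((∀ s ∈ Iner M D th, ∀ t ∈ Iner M D th,
        s * t * s⁻¹ * t⁻¹ ∈ Subgroup.centralizer (D : Set G)) ∨ In M D th ℓ ∨ Fd ℓ M D th)) ∨
    (2 ≤ a ∧ ∃ x y : A, D.map p = Subgroup.closure {x, y}) ∨
    (0 < a ∧ Fd ℓ M D th ∧ In M D th (ℓ ^ a + 1))) → altSum ℓ M χ = 0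

end Pool.Agent.PP.T12
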